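import Pool.Agent.J4H38.GS.Stm5

/-!
# Project GS5 (helper38, MP_bc6037_nt): (DIA), the diagonal terms
-/

set_option autoImplicit false

open MeasureTheory Set Filter Polynomial Topology
open scoped ComplexConjugate

namespace Pool.Agent.J4H57.GS.Dia

open Pool.Agent.J4H38.GS

noncomputable section

variable {k : ℕ}

theorem norm_ch (α : Fin k → ℝ) (f : Fin k → ℕ) :
    ‖Complex.exp (2 * Real.pi * Complex.I * ((∑ i, α i * f i : ℝ) : ℂ))‖ = 1 := by
  have : (2 * Real.pi * Complex.I * ((∑ i, α i * f i : ℝ) : ℂ)) =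
      ((2 * Real.pi * (∑ i, α i * f i) : ℝ) : ℂ) * Complex.I := by
    push_cast; ring
  rw [this, Complex.norm_exp_ofReal_mul_I]

theorem norm_gg (α : Fin k → ℝ) (n : ℕ) : ‖gg α n‖ ≤ (Nat.finMulAntidiag k n).card := by
  unfold gg
  refine (norm_sum_le _ _).trans (le_of_eq ?_)
  rw [Finset.sum_congr rfl fun f _ => norm_ch α f]
  simp

theorem sub_mul (N : ℕ) {n : ℕ} (hn : n ≠ 0) :
    (Fintype.piFinset fun _ : Fin k => Finset.Icc 1 N).filter (fun f => ∏ i, f i = n) ⊆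
      Nat.finMulAntidiag k n := by
  intro f hf
  rw [Finset.mem_filter] at hf
  rw [Nat.mem_finMulAntidiag]
  exact ⟨hf.2, hn⟩

theorem norm_gN (N : ℕ) (α : Fin k → ℝ) {n : ℕ} (hn : n ≠ 0) :
    ‖gN N α n‖ ≤ (Nat.finMulAntidiag k n).card := by
  unfold gN
  refine (norm_sum_le _ _).trans ?_
  rw [Finset.sum_congr rfl fun f _ => norm_ch α f]
  simp only [Finset.sum_const, nsmul_eq_mul, mul_one]
  exact_mod_cast Finset.card_le_card (sub_mul N hn)

theorem gN_eq {N : ℕ} (α : Fin k → ℝ) {n : ℕ} (hn : n ≠ 0) (hnN : n ≤ N) : gN N α n = gg α n := by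
  unfold gN gg
  refine Finset.sum_congr ?_ fun _ _ => rfl
  apply Finset.Subset.antisymm (sub_mul N hn)
  intro f hf
  rw [Nat.mem_finMulAntidiag] at hf
  rw [Finset.mem_filter, Fintype.mem_piFinset]
  refine ⟨fun i => ?_, hf.1⟩
  have h1 : f i ∣ n := by rw [← hf.1]; exact Finset.dvd_prod_of_mem f (Finset.mem_univ i)
  have h2 := Nat.le_of_dvd (Nat.pos_of_ne_zero hn) h1
  have h3 : f i ≠ 0 := fun h => hn (by rw [h] at h1; exact Nat.eq_zero_of_zero_dvd h1)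
  rw [Finset.mem_Icc]
  omega

theorem gN_zero {N : ℕ} (α : Fin k → ℝ) {n : ℕ} (hn : N ^ k < n) : gN N α n = 0 := by
  unfold gN
  rw [Finset.filter_eq_empty_iff.mpr, Finset.sum_empty]
  intro f hf h
  rw [Fintype.mem_piFinset] at hf
  have : ∏ i, f i ≤ N ^ k := by
    calc ∏ i, f i ≤ ∏ _i : Fin k, N := Finset.prod_le_prod' fun i _ => (Finset.mem_Icc.mp (hf i)).2
      _ = N ^ k := by simp
  omega

theorem norm_pw {b : ℂ} {x₀ : ℝ} (hb : x₀ ≤ b.re) (n : ℕ) :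
    ‖((n : ℂ) + 1) ^ (-(2 * b))‖ ≤ ((n : ℝ) + 1) ^ (-(2 * x₀)) := by
  have h1 : ((n : ℂ) + 1) = ((n + 1 : ℕ) : ℂ) := by push_cast; rfl
  have h2 : ((n : ℝ) + 1) = ((n + 1 : ℕ) : ℝ) := by push_cast; rfl
  rw [h1, Complex.norm_natCast_cpow_of_pos (Nat.succ_pos n), h2]
  apply Real.rpow_le_rpow_of_exponent_le
  · exact_mod_cast Nat.succ_pos n
  · have : (-(2 * b)).re = -(2 * b.re) := by simp
    rw [this]
    linarith

theorem summ {p : ℝ} (hp : 1 < p) : Summable fun n : ℕ => ((n : ℝ) + 1) ^ (-p) := by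
  have h1 : Summable fun n : ℕ => ((n : ℕ) : ℝ) ^ (-p) := Real.summable_nat_rpow.mpr (by linarith)
  have h2 := (summable_nat_add_iff 1).mpr h1
  simpa using h2

/-- the bound for the terms -/
theorem term_le {C ε x₀ : ℝ} (hC : 0 ≤ C)
    (hd : ∀ n : ℕ, 1 ≤ n → ((Nat.finMulAntidiag k n).card : ℝ) ≤ C * (n : ℝ) ^ ε)
    {a : ℝ} {n : ℕ} (ha : |a| ≤ ((Nat.finMulAntidiag k (n + 1)).card : ℝ) ^ 2) {b : ℂ} (hb : x₀ ≤ b.re) :
    ‖(a : ℂ) * ((n : ℂ) + 1) ^ (-(2 * b))‖ ≤ C ^ 2 * ((n : ℝ) + 1) ^ (-(2 * x₀ - 2 * ε)) := by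
  have hn0 : (0 : ℝ) < (n : ℝ) + 1 := by positivity
  have h1 := hd (n + 1) (by omega)
  push_cast at h1
  have h2 : ((Nat.finMulAntidiag k (n + 1)).card : ℝ) ^ 2 ≤ (C * ((n : ℝ) + 1) ^ ε) ^ 2 :=
    pow_le_pow_left₀ (Nat.cast_nonneg _) h1 2
  rw [norm_mul, Complex.norm_real, Real.norm_eq_abs]
  calc |a| * ‖((n : ℂ) + 1) ^ (-(2 * b))‖
      ≤ (C * ((n : ℝ) + 1) ^ ε) ^ 2 * ((n : ℝ) + 1) ^ (-(2 * x₀)) :=
        mul_le_mul (ha.trans h2) (norm_pw hb n) (norm_nonneg _) (by positivity)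
    _ = C ^ 2 * ((n : ℝ) + 1) ^ (-(2 * x₀ - 2 * ε)) := by
        rw [mul_pow, ← Real.rpow_natCast (((n : ℝ) + 1) ^ ε) 2, ← Real.rpow_mul hn0.le, mul_assoc,
          ← Real.rpow_add hn0]
        congr 2
        push_cast
        ring

theorem abs_gg (α : Fin k → ℝ) (n : ℕ) :
    |‖gg α (n + 1)‖ ^ 2| ≤ ((Nat.finMulAntidiag k (n + 1)).card : ℝ) ^ 2 := by
  rw [abs_of_nonneg (by positivity)]
  exact pow_le_pow_left₀ (norm_nonneg _) (norm_gg α _) 2

theorem abs_gN (N : ℕ) (α : Fin k → ℝ) (n : ℕ) :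
    |‖gN N α (n + 1)‖ ^ 2| ≤ ((Nat.finMulAntidiag k (n + 1)).card : ℝ) ^ 2 := by
  rw [abs_of_nonneg (by positivity)]
  exact pow_le_pow_left₀ (norm_nonneg _) (norm_gN N α (by omega)) 2

theorem MN_tsum (N : ℕ) (α : Fin k → ℝ) (b : ℂ) :
    MN N α b = ∑' n : ℕ, ((‖gN N α (n + 1)‖ ^ 2 : ℝ) : ℂ) * ((n : ℂ) + 1) ^ (-(2 * b)) := by
  rw [tsum_eq_sum (s := Finset.range (N ^ k))]
  · unfold MN
    refine Finset.sum_nbij' (fun n => n - 1) (fun n => n + 1) ?_ ?_ ?_ ?_ ?_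
    · intro n hn
      rw [Finset.mem_Icc] at hn
      rw [Finset.mem_range]
      omega
    · intro n hn
      rw [Finset.mem_range] at hn
      rw [Finset.mem_Icc]
      omega
    · intro n hn
      rw [Finset.mem_Icc] at hn
      omega
    · intro n _
      simp
    · intro n hn
      rw [Finset.mem_Icc] at hn
      obtain ⟨m, rfl⟩ : ∃ m, n = m + 1 := ⟨n - 1, by omega⟩
      simp
  · intro n hn
    rw [Finset.mem_range, not_lt] at hn
    rw [gN_zero α (by omega)]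
    simp

theorem t_DIA : S_DK → S_DIA := by
  intro hDK k α
  constructor
  · intro b hb
    have hb' : 1 / 2 < b.re := hb
    obtain ⟨x₀, hx₀⟩ : ∃ x₀ : ℝ, x₀ = (b.re + 1 / 2) / 2 := ⟨_, rfl⟩
    have h1 : 1 / 2 < x₀ := by rw [hx₀]; linarith
    have h2 : x₀ < b.re := by rw [hx₀]; linarith
    obtain ⟨C, hC, hd⟩ := hDK k ((2 * x₀ - 1) / 4) (by linarith)
    have hU : IsOpen {w : ℂ | x₀ < w.re} := isOpen_lt continuous_const Complex.continuous_re
    have h3 : DifferentiableOn ℂ (MM α) {w : ℂ | x₀ < w.re} := by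
      unfold MM
      refine Complex.differentiableOn_tsum_of_summable_norm
        (u := fun n : ℕ => C ^ 2 * ((n : ℝ) + 1) ^ (-(2 * x₀ - 2 * ((2 * x₀ - 1) / 4)))) ?_ ?_ hU ?_
      · exact (summ (by linarith)).mul_left _
      · intro n w _
        apply DifferentiableAt.differentiableWithinAt
        have h0 : ((n : ℂ) + 1) ≠ 0 := by exact_mod_cast Nat.succ_ne_zero n
        refine DifferentiableAt.const_mul ?_ _
        refine DifferentiableAt.const_cpow ?_ (Or.inl h0)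
        fun_prop
      · intro n w hw
        exact term_le hC hd (abs_gg α n) (le_of_lt hw)
    exact (h3.differentiableAt (hU.mem_nhds h2)).differentiableWithinAt
  · intro x₀ η hx₀ hη
    obtain ⟨κ, hκ⟩ : ∃ κ : ℝ, κ = x₀ - 1 / 2 := ⟨_, rfl⟩
    have hκ0 : 0 < κ := by rw [hκ]; linarith
    obtain ⟨C, hC, hd⟩ := hDK k ((2 * x₀ - 1) / 4) (by linarith)
    have hs1 : Summable fun n : ℕ => ((n : ℝ) + 1) ^ (-(1 + κ / 2)) := summ (by linarith)
    have hs2 : Summable fun n : ℕ => ((n : ℝ) + 1) ^ (-(1 + κ)) := summ (by linarith)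
    have hexp : ∀ n : ℕ, ((n : ℝ) + 1) ^ (-(2 * x₀ - 2 * ((2 * x₀ - 1) / 4))) =
        ((n : ℝ) + 1) ^ (-(1 + κ)) := by
      intro n
      congr 1
      rw [hκ]
      ring
    refine ⟨η * κ / 2, C ^ 2 * ∑' n : ℕ, ((n : ℝ) + 1) ^ (-(1 + κ / 2)), by positivity, ?_, ?_⟩
    · exact mul_nonneg (by positivity) (tsum_nonneg fun n => by positivity)
    intro j b hb
    obtain ⟨N, hN⟩ : ∃ N, N = NJ η j := ⟨_, rfl⟩
    rw [← hN]
    have hNl : (2 : ℝ) ^ (η * j) ≤ N := by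
      rw [hN]
      exact Nat.le_ceil _
    have hN0 : (0 : ℝ) < N := lt_of_lt_of_le (by positivity) hNl
    have hsN : Summable fun n : ℕ => ((‖gN N α (n + 1)‖ ^ 2 : ℝ) : ℂ) * ((n : ℂ) + 1) ^ (-(2 * b)) := by
      refine Summable.of_norm_bounded (hs2.mul_left (C ^ 2)) fun n => ?_
      rw [← hexp]
      exact term_le hC hd (abs_gN N α n) hb
    have hsg : Summable fun n : ℕ => ((‖gg α (n + 1)‖ ^ 2 : ℝ) : ℂ) * ((n : ℂ) + 1) ^ (-(2 * b)) := by
      refine Summable.of_norm_bounded (hs2.mul_left (C ^ 2)) fun n => ?_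
      rw [← hexp]
      exact term_le hC hd (abs_gg α n) hb
    rw [MN_tsum]
    unfold MM
    rw [← hsN.tsum_sub hsg]
    have hb1 : ∀ n : ℕ, ‖((‖gN N α (n + 1)‖ ^ 2 : ℝ) : ℂ) * ((n : ℂ) + 1) ^ (-(2 * b)) -
        ((‖gg α (n + 1)‖ ^ 2 : ℝ) : ℂ) * ((n : ℂ) + 1) ^ (-(2 * b))‖ ≤
        C ^ 2 * (N : ℝ) ^ (-(κ / 2)) * ((n : ℝ) + 1) ^ (-(1 + κ / 2)) := by
      intro n
      have hn0 : (0 : ℝ) < (n : ℝ) + 1 := by positivity
      by_cases hn : n + 1 ≤ N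
      · rw [gN_eq α (by omega) hn, sub_self, norm_zero]
        positivity
      · have e : ((‖gN N α (n + 1)‖ ^ 2 : ℝ) : ℂ) * ((n : ℂ) + 1) ^ (-(2 * b)) -
            ((‖gg α (n + 1)‖ ^ 2 : ℝ) : ℂ) * ((n : ℂ) + 1) ^ (-(2 * b)) =
            ((‖gN N α (n + 1)‖ ^ 2 - ‖gg α (n + 1)‖ ^ 2 : ℝ) : ℂ) * ((n : ℂ) + 1) ^ (-(2 * b)) := by
          push_cast
          ring
        rw [e]
        refine (term_le hC hd ?_ hb).trans ?_
        · have h1 := abs_gg α n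
          have h2 := abs_gN N α n
          rw [abs_of_nonneg (by positivity)] at h1 h2
          rw [abs_le]
          constructor
          · nlinarith [sq_nonneg ‖gN N α (n + 1)‖]
          · nlinarith [sq_nonneg ‖gg α (n + 1)‖]
        · rw [hexp]
          have h1 : ((n : ℝ) + 1) ^ (-(1 + κ)) =
              ((n : ℝ) + 1) ^ (-(κ / 2)) * ((n : ℝ) + 1) ^ (-(1 + κ / 2)) := by
            rw [← Real.rpow_add hn0]
            congr 1
            ring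
          have h2 : ((n : ℝ) + 1) ^ (-(κ / 2)) ≤ (N : ℝ) ^ (-(κ / 2)) := by
            apply Real.rpow_le_rpow_of_nonpos hN0
            · have : N ≤ n + 1 := by omega
              exact_mod_cast this
            · linarith
          rw [h1, mul_assoc]
          refine mul_le_mul_of_nonneg_left ?_ (by positivity)
          exact mul_le_mul_of_nonneg_right h2 (by positivity)
    have h3 := tsum_of_norm_bounded (hs1.mul_left (C ^ 2 * (N : ℝ) ^ (-(κ / 2)))).hasSum hb1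
    rw [tsum_mul_left] at h3
    refine h3.trans ?_
    have h4 : (N : ℝ) ^ (-(κ / 2)) ≤ (2 : ℝ) ^ (-(η * κ / 2 * j)) := by
      calc (N : ℝ) ^ (-(κ / 2)) ≤ ((2 : ℝ) ^ (η * j)) ^ (-(κ / 2)) :=
            Real.rpow_le_rpow_of_nonpos (by positivity) hNl (by linarith)
        _ = (2 : ℝ) ^ (-(η * κ / 2 * j)) := by
            rw [← Real.rpow_mul (by norm_num)]
            congr 1
            ring
    have h5 : 0 ≤ ∑' n : ℕ, ((n : ℝ) + 1) ^ (-(1 + κ / 2)) := tsum_nonneg fun n => by positivity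
    calc C ^ 2 * (N : ℝ) ^ (-(κ / 2)) * ∑' n : ℕ, ((n : ℝ) + 1) ^ (-(1 + κ / 2))
        ≤ C ^ 2 * (2 : ℝ) ^ (-(η * κ / 2 * j)) * ∑' n : ℕ, ((n : ℝ) + 1) ^ (-(1 + κ / 2)) :=
          mul_le_mul_of_nonneg_right (mul_le_mul_of_nonneg_left h4 (by positivity)) h5
      _ = _ := by ring

end

end Pool.Agent.J4H57.GS.Dia
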