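import Pool.Agent.J4H38.GS.Stm5
import Pool.Agent.H505R2.DivB

/-! Project GS5, piece DK: the divisor bound for ordered factorisations. -/

set_option autoImplicit false

namespace Pool.Agent.J4H57.GS.Dk

open Pool.Agent.J4H38.GS

theorem t_DK : S_DK := by
  intro k ε hε
  have hk0 : (0 : ℝ) < (k : ℝ) + 1 := by positivity
  obtain ⟨C, hC, h⟩ := Pool.Agent.H505R2.div_bound (δ := ε / ((k : ℝ) + 1)) (by positivity)
  have hC0 : 0 ≤ C := by linarith
  refine ⟨C ^ k, by positivity, fun n hn => ?_⟩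
  have hn0 : n ≠ 0 := by omega
  have h2 : (Nat.finMulAntidiag k n).card ≤ n.divisors.card ^ k := by
    rw [Nat.finMulAntidiag_eq_piFinset_divisors_filter dvd_rfl hn0]
    refine (Finset.card_filter_le _ _).trans ?_
    rw [Fintype.card_piFinset]
    simp
  have h3 : ((Nat.finMulAntidiag k n).card : ℝ) ≤ (n.divisors.card : ℝ) ^ k := by exact_mod_cast h2
  have hn1 : (1 : ℝ) ≤ n := by exact_mod_cast hn
  have h4 : (n.divisors.card : ℝ) ^ k ≤ (C * (n : ℝ) ^ (ε / ((k : ℝ) + 1))) ^ k :=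
    pow_le_pow_left₀ (by positivity) (h n hn0) k
  have h5 : ((n : ℝ) ^ (ε / ((k : ℝ) + 1))) ^ k ≤ (n : ℝ) ^ ε := by
    rw [← Real.rpow_natCast, ← Real.rpow_mul (by linarith)]
    refine Real.rpow_le_rpow_of_exponent_le hn1 ?_
    rw [div_mul_eq_mul_div, div_le_iff₀ hk0]
    nlinarith
  rw [mul_pow] at h4
  exact h3.trans (h4.trans (mul_le_mul_of_nonneg_left h5 (by positivity)))

end Pool.Agent.J4H57.GS.Dk
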