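import Pool.Agent.J4H38.GS.Stm5

/-! Project GS5, piece LA: mean squares of `expZeta a w` over `a` (orthogonality and Fatou). -/

set_option autoImplicit false

namespace Pool.Agent.J4H57.GS.La

open MeasureTheory Set Filter Topology
open Pool.Agent.J4H38.GS
open scoped ComplexConjugate

lemma int_e (k : ℤ) (hk : k ≠ 0) :
    ∫ a in (0 : ℝ)..1, Complex.exp ((2 * Real.pi * Complex.I * k) * a) = 0 := by
  have hc : (2 * Real.pi * Complex.I * k : ℂ) ≠ 0 := by
    have : (k : ℂ) ≠ 0 := by exact_mod_cast hk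
    simp [Real.pi_ne_zero, this]
  rw [integral_exp_mul_complex hc]
  have h1 : Complex.exp (2 * Real.pi * Complex.I * k * ((1 : ℝ) : ℂ)) = 1 := by
    rw [Complex.exp_eq_one_iff]
    exact ⟨k, by push_cast; ring⟩
  rw [h1]
  simp

/-- the trigonometric polynomial -/
noncomputable def F (s : Finset ℕ) (c : ℕ → ℂ) (a : ℝ) : ℂ := ∑ n ∈ s, Complex.exp (2 * Real.pi * Complex.I * a * n) * c n

lemma F_cont (s : Finset ℕ) (c : ℕ → ℂ) : Continuous (F s c) := by
  unfold F
  refine continuous_finsetSum _ fun n _ => ?_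
  refine Continuous.mul (Complex.continuous_exp.comp ?_) continuous_const
  exact (continuous_const.mul Complex.continuous_ofReal).mul continuous_const

lemma F_sq (s : Finset ℕ) (c : ℕ → ℂ) (a : ℝ) :
    ((‖F s c a‖ ^ 2 : ℝ) : ℂ) = ∑ m ∈ s, ∑ n ∈ s, c m * conj (c n) * Complex.exp ((2 * Real.pi * Complex.I * ((m - n : ℤ) : ℂ)) * a) := by
  rw [Complex.ofReal_pow, ← Complex.mul_conj']
  unfold F
  rw [map_sum, Finset.sum_mul_sum]
  refine Finset.sum_congr rfl fun m _ => Finset.sum_congr rfl fun n _ => ?_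
  rw [map_mul, ← Complex.exp_conj]
  have e1 : conj (2 * Real.pi * Complex.I * a * n : ℂ) = -(2 * Real.pi * Complex.I * a * n) := by
    simp only [map_mul, Complex.conj_I, Complex.conj_ofReal, map_natCast, map_ofNat]
    ring
  rw [e1]
  have e2 : Complex.exp ((2 * Real.pi * Complex.I * ((m - n : ℤ) : ℂ)) * a) =
      Complex.exp (2 * Real.pi * Complex.I * a * m) * Complex.exp (-(2 * Real.pi * Complex.I * a * n)) := by
    rw [← Complex.exp_add]
    congr 1
    push_cast
    ring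
  rw [e2]
  ring

lemma orth (s : Finset ℕ) (c : ℕ → ℂ) :
    ∫⁻ a in Ico (0 : ℝ) 1, ‖F s c a‖ₑ ^ 2 = ENNReal.ofReal (∑ n ∈ s, ‖c n‖ ^ 2) := by
  have h1 : ∀ a, ‖F s c a‖ₑ ^ 2 = ENNReal.ofReal (‖F s c a‖ ^ 2) := fun a => by
    rw [ENNReal.ofReal_pow (norm_nonneg _), ofReal_norm]
  simp_rw [h1]
  have hcont : Continuous (fun a => ‖F s c a‖ ^ 2) := (F_cont s c).norm.pow 2
  rw [← ofReal_integral_eq_lintegral_ofReal]
  · congr 1
    rw [integral_Ico_eq_integral_Ioo, ← integral_Ioc_eq_integral_Ioo, ← intervalIntegral.integral_of_le zero_le_one]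
    have h2 : ((∫ a in (0 : ℝ)..1, ‖F s c a‖ ^ 2 : ℝ) : ℂ) = ((∑ n ∈ s, ‖c n‖ ^ 2 : ℝ) : ℂ) := by
      rw [← intervalIntegral.integral_ofReal]
      simp_rw [F_sq]
      rw [intervalIntegral.integral_finsetSum]
      · rw [Complex.ofReal_sum]
        refine Finset.sum_congr rfl fun m hm => ?_
        rw [intervalIntegral.integral_finsetSum]
        · rw [Finset.sum_eq_single m]
          · simp only [sub_self, Int.cast_zero, mul_zero, zero_mul, Complex.exp_zero, mul_one]
            rw [intervalIntegral.integral_const, Complex.mul_conj', Complex.ofReal_pow]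
            simp
          · intro n _ hn
            rw [intervalIntegral.integral_const_mul, int_e _ (by
              intro h
              apply hn
              have : (m : ℤ) = n := by omega
              exact_mod_cast this.symm), mul_zero]
          · intro h
            exact absurd hm h
        · intro n _
          apply Continuous.intervalIntegrable
          fun_prop
      · intro m _
        apply Continuous.intervalIntegrable
        fun_prop
    exact_mod_cast h2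
  · exact (hcont.integrableOn_Icc (a := 0) (b := 1)).mono_set Ico_subset_Icc_self
  · exact Eventually.of_forall fun a => by positivity

lemma tail {σ : ℝ} (hσ : 1 / 2 < σ) {N M : ℕ} (hN : 1 ≤ N) (hNM : N ≤ M) :
    ∑ n ∈ Finset.Ioc N M, (n : ℝ) ^ (-(2 * σ)) ≤ (N : ℝ) ^ (1 - 2 * σ) / (2 * σ - 1) := by
  have hN0 : (0 : ℝ) < N := by exact_mod_cast hN
  have hM0 : (0 : ℝ) < M := by exact_mod_cast (hN.trans hNM)
  have h1 := AntitoneOn.sum_le_integral_Ico (f := fun x : ℝ => x ^ (-(2 * σ))) hNM (by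
    intro x hx y hy hxy
    have hx0 : 0 < x := lt_of_lt_of_le hN0 hx.1
    exact Real.rpow_le_rpow_of_nonpos hx0 hxy (by linarith))
  have h2 : ∑ n ∈ Finset.Ioc N M, (n : ℝ) ^ (-(2 * σ)) = ∑ i ∈ Finset.Ico N M, ((i + 1 : ℕ) : ℝ) ^ (-(2 * σ)) := by
    rw [← Finset.Ico_add_one_add_one_eq_Ioc]
    exact (Finset.sum_Ico_add' (fun n : ℕ => (n : ℝ) ^ (-(2 * σ))) N M 1).symm
  rw [h2]
  refine h1.trans ?_
  rw [integral_rpow]
  · have e1 : -(2 * σ) + 1 = -(2 * σ - 1) := by ring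
    have e2 : (1 : ℝ) - 2 * σ = -(2 * σ - 1) := by ring
    rw [e1, e2, div_neg, ← neg_div, neg_sub]
    refine div_le_div_of_nonneg_right ?_ (by linarith)
    have := Real.rpow_nonneg hM0.le (-(2 * σ - 1))
    linarith
  · right
    refine ⟨by linarith, ?_⟩
    rw [uIcc_of_le (by exact_mod_cast hNM)]
    intro h
    exact absurd h.1 (not_le.2 hN0)

lemma fatou (g : ℝ → ℂ) (f : ℕ → ℝ → ℂ) (hf : ∀ n, Measurable (f n)) (B : ENNReal)
    (hlim : ∀ a, 0 < a → a < 1 → Tendsto (fun n => f n a) atTop (𝓝 (g a)))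
    (hB : ∀ᶠ n in atTop, ∫⁻ a in Ico (0 : ℝ) 1, ‖f n a‖ₑ ^ 2 ≤ B) :
    ∫⁻ a in Ico (0 : ℝ) 1, ‖g a‖ₑ ^ 2 ≤ B := by
  have h1 : ∫⁻ a in Ico (0 : ℝ) 1, ‖g a‖ₑ ^ 2 =
      ∫⁻ a in Ico (0 : ℝ) 1, liminf (fun n => ‖f n a‖ₑ ^ 2) atTop := by
    apply lintegral_congr_ae
    have h0 : ∀ᵐ a ∂(volume.restrict (Ico (0 : ℝ) 1)), a ≠ 0 := by
      refine ae_restrict_of_ae ?_
      exact (measure_eq_zero_iff_ae_notMem.1 (Real.volume_singleton (a := 0))).mono fun a ha => by simpa using ha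
    filter_upwards [h0, ae_restrict_mem measurableSet_Ico] with a ha h
    have h2 := hlim a (lt_of_le_of_ne h.1 ha.symm) h.2
    have h3 : Tendsto (fun n => ‖f n a‖ₑ ^ 2) atTop (𝓝 (‖g a‖ₑ ^ 2)) := by
      exact ((ENNReal.continuous_pow 2).tendsto _).comp h2.enorm
    exact h3.liminf_eq.symm
  rw [h1]
  refine (lintegral_liminf_le fun n => ((hf n).enorm.pow_const 2)).trans ?_
  exact liminf_le_of_frequently_le' hB.frequently

lemma SN_eq (N : ℕ) (w : ℂ) (a : ℝ) : SN N a w = F (Finset.Ioc 0 N) (fun n => (n : ℂ) ^ (-w)) a := by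
  unfold SN F
  rfl

lemma SN_sub {N M : ℕ} (h : N ≤ M) (w : ℂ) (a : ℝ) :
    SN M a w - SN N a w = F (Finset.Ioc N M) (fun n => (n : ℂ) ^ (-w)) a := by
  rw [SN_eq, SN_eq]
  unfold F
  rw [← Finset.sum_Ioc_consecutive _ (Nat.zero_le N) h]
  ring

lemma norm_c {n : ℕ} (hn : 1 ≤ n) (w : ℂ) : ‖(n : ℂ) ^ (-w)‖ ^ 2 = (n : ℝ) ^ (-(2 * w.re)) := by
  rw [Complex.norm_natCast_cpow_of_pos (by omega), ← Real.rpow_natCast, ← Real.rpow_mul (by positivity)]
  congr 1
  simp
  ring

theorem t_LA (hEZ : S_EZ) : S_LA := by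
  intro w hw
  have h0 : 0 < 2 * w.re - 1 := by linarith
  have hb : ∀ N : ℕ, ∫⁻ a in Ico (0 : ℝ) 1, ‖SN N a w‖ₑ ^ 2 ≤ ENNReal.ofReal (1 + 1 / (2 * w.re - 1)) := by
    intro N
    simp_rw [SN_eq]
    rw [orth]
    apply ENNReal.ofReal_le_ofReal
    rcases Nat.eq_zero_or_pos N with hN | hN
    · subst hN
      simp only [Finset.Ioc_self, Finset.sum_empty]
      positivity
    · rw [← Finset.sum_Ioc_consecutive _ (Nat.zero_le 1) hN]
      have h1 : ∑ n ∈ Finset.Ioc (0 : ℕ) 1, ‖(n : ℂ) ^ (-w)‖ ^ 2 = 1 := by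
        have : Finset.Ioc (0 : ℕ) 1 = {1} := by decide
        rw [this, Finset.sum_singleton]
        simp
      have h2 : ∑ n ∈ Finset.Ioc 1 N, ‖(n : ℂ) ^ (-w)‖ ^ 2 ≤ 1 / (2 * w.re - 1) := by
        have h3 := tail hw (le_refl 1) hN
        rw [Nat.cast_one, Real.one_rpow] at h3
        refine le_trans (le_of_eq ?_) h3
        refine Finset.sum_congr rfl fun n hn => ?_
        exact norm_c (by have := (Finset.mem_Ioc.1 hn).1; omega) w
      linarith
  have hm : ∀ N : ℕ, Measurable (fun a => SN N a w) := by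
    intro N
    have : (fun a => SN N a w) = F (Finset.Ioc 0 N) (fun n => (n : ℂ) ^ (-w)) := funext fun a => SN_eq N w a
    rw [this]
    exact (F_cont _ _).measurable
  refine ⟨fun N hN => ?_, hb, ?_⟩
  · refine fatou _ (fun M a => SN M a w - SN N a w) (fun M => (hm M).sub (hm N)) _ (fun a h1 h2 => ?_) ?_
    · exact (hEZ a h1 h2 w (by linarith)).sub_const _
    · filter_upwards [eventually_ge_atTop N] with M hM
      simp_rw [SN_sub hM]
      rw [orth]
      apply ENNReal.ofReal_le_ofReal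
      refine le_trans (le_of_eq ?_) (tail hw hN hM)
      refine Finset.sum_congr rfl fun n hn => ?_
      exact norm_c (by have := (Finset.mem_Ioc.1 hn).1; omega) w
  · exact fatou _ (fun M a => SN M a w) hm _ (fun a h1 h2 => hEZ a h1 h2 w (by linarith)) (Eventually.of_forall hb)

end Pool.Agent.J4H57.GS.La
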