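import Pool.Agent.J4H38.GS.Stm5

/-!
# Project GS5 (helper38, MP_bc6037_nt): (POL), the mean value of the polynomial
-/

set_option autoImplicit false

open MeasureTheory Set Filter Polynomial Topology
open scoped ComplexConjugate

namespace Pool.Agent.J4H57.GS

open Pool.Agent.J4H38.GS

noncomputable section

variable {k : ℕ}

/-- the tuples -/
def FF (k N : ℕ) : Finset (Fin k → ℕ) := Fintype.piFinset fun _ : Fin k => Finset.Icc 1 N

/-- the character -/
def ch (α : Fin k → ℝ) (f : Fin k → ℕ) : ℂ :=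
  Complex.exp (2 * Real.pi * Complex.I * ((∑ i, α i * f i : ℝ) : ℂ))

/-- logarithm of the product -/
def lg (f : Fin k → ℕ) : ℝ := Real.log ((∏ i, f i : ℕ) : ℝ)

theorem prod_pos' {N : ℕ} {f : Fin k → ℕ} (hf : f ∈ FF k N) : 1 ≤ ∏ i, f i := by
  unfold FF at hf
  rw [Fintype.mem_piFinset] at hf
  exact Nat.one_le_iff_ne_zero.mpr (Finset.prod_ne_zero_iff.mpr fun i _ => by
    have := Finset.mem_Icc.mp (hf i); omega)

theorem prod_le' {N : ℕ} {f : Fin k → ℕ} (hf : f ∈ FF k N) : ∏ i, f i ≤ N ^ k := by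
  unfold FF at hf
  rw [Fintype.mem_piFinset] at hf
  calc ∏ i, f i ≤ ∏ _i : Fin k, N := Finset.prod_le_prod' fun i _ => (Finset.mem_Icc.mp (hf i)).2
    _ = N ^ k := by simp

theorem lg_nonneg {N : ℕ} {f : Fin k → ℕ} (hf : f ∈ FF k N) : 0 ≤ lg f :=
  Real.log_nonneg (by exact_mod_cast prod_pos' hf)

theorem norm_ch (α : Fin k → ℝ) (f : Fin k → ℕ) : ‖ch α f‖ = 1 := by
  unfold ch
  have : (2 * Real.pi * Complex.I * ((∑ i, α i * f i : ℝ) : ℂ)) =
      ((2 * Real.pi * (∑ i, α i * f i) : ℝ) : ℂ) * Complex.I := by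
    push_cast; ring
  rw [this, Complex.norm_exp_ofReal_mul_I]

theorem nat_cpow {n : ℕ} (hn : 1 ≤ n) (w : ℂ) :
    (n : ℂ) ^ (-w) = Complex.exp (-w * ((Real.log n : ℝ) : ℂ)) := by
  have h0 : (n : ℂ) ≠ 0 := by exact_mod_cast (by omega : n ≠ 0)
  rw [Complex.cpow_def_of_ne_zero h0, Complex.natCast_log, mul_comm]

theorem DN_eq (N : ℕ) (α : Fin k → ℝ) (w : ℂ) :
    DN N α w = ∑ f ∈ FF k N, ch α f * Complex.exp (-w * (lg f : ℂ)) := by
  unfold DN SN
  rw [Finset.prod_univ_sum]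
  refine Finset.sum_congr rfl fun f hf => ?_
  have h1 : ∀ i, 1 ≤ f i := fun i => (Finset.mem_Icc.mp (Fintype.mem_piFinset.mp hf i)).1
  rw [Finset.prod_mul_distrib]
  congr 1
  · unfold ch
    rw [← Complex.exp_sum]
    congr 1
    push_cast
    rw [Finset.mul_sum]
    refine Finset.sum_congr rfl fun i _ => ?_
    ring
  · have h2 : ∀ i ∈ (Finset.univ : Finset (Fin k)), ((f i : ℕ) : ℂ) ^ (-w) =
        Complex.exp (-w * ((Real.log (f i) : ℝ) : ℂ)) := fun i _ => nat_cpow (h1 i) w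
    rw [Finset.prod_congr rfl h2, ← Complex.exp_sum]
    congr 1
    unfold lg
    rw [← Finset.mul_sum]
    congr 1
    push_cast
    rw [Real.log_prod (fun i _ => by have := h1 i; positivity)]
    push_cast
    rfl

/-- the coefficients of the product -/
def HH (α : Fin k → ℝ) (b : ℂ) (f g : Fin k → ℕ) : ℂ :=
  conj (ch α f) * ch α g * Complex.exp (-b * ((lg f + lg g : ℝ) : ℂ))

theorem norm_HH {N : ℕ} {α : Fin k → ℝ} {b : ℂ} (hb : 0 ≤ b.re) {f g : Fin k → ℕ} (hf : f ∈ FF k N)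
    (hg : g ∈ FF k N) : ‖HH α b f g‖ ≤ 1 := by
  unfold HH
  rw [norm_mul, norm_mul, RCLike.norm_conj, norm_ch, norm_ch, one_mul, one_mul, Complex.norm_exp,
    Complex.re_mul_ofReal]
  apply Real.exp_le_one_iff.mpr
  have := lg_nonneg hf
  have := lg_nonneg hg
  rw [Complex.neg_re]
  nlinarith [mul_nonneg hb (add_nonneg (lg_nonneg hf) (lg_nonneg hg))]

theorem integrand (N : ℕ) (α : Fin k → ℝ) (b : ℂ) (t : ℝ) :
    conj (DN N α (conj b + t * Complex.I)) * DN N α (b + t * Complex.I) =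
      ∑ f ∈ FF k N, ∑ g ∈ FF k N, HH α b f g *
        Complex.exp (Complex.I * ((lg f - lg g : ℝ) : ℂ) * (t : ℂ)) := by
  rw [DN_eq, DN_eq, map_sum, Finset.sum_mul_sum]
  refine Finset.sum_congr rfl fun f _ => Finset.sum_congr rfl fun g _ => ?_
  rw [map_mul, ← Complex.exp_conj]
  unfold HH
  have e1 : conj (-(conj b + (t : ℂ) * Complex.I) * (lg f : ℂ)) = -(b - t * Complex.I) * (lg f : ℂ) := by
    rw [map_mul, map_neg, map_add, map_mul, Complex.conj_conj, Complex.conj_ofReal, Complex.conj_I,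
      Complex.conj_ofReal]
    ring
  rw [e1]
  calc conj (ch α f) * Complex.exp (-(b - t * Complex.I) * (lg f : ℂ)) *
      (ch α g * Complex.exp (-(b + t * Complex.I) * (lg g : ℂ))) =
      conj (ch α f) * ch α g * (Complex.exp (-(b - t * Complex.I) * (lg f : ℂ)) *
        Complex.exp (-(b + t * Complex.I) * (lg g : ℂ))) := by ring
    _ = conj (ch α f) * ch α g * (Complex.exp (-b * ((lg f + lg g : ℝ) : ℂ)) *
        Complex.exp (Complex.I * ((lg f - lg g : ℝ) : ℂ) * (t : ℂ))) := by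
        rw [← Complex.exp_add, ← Complex.exp_add]
        congr 2
        push_cast
        ring
    _ = _ := by ring

theorem int_le {d a b : ℝ} (hd : d ≠ 0) :
    ‖∫ t in a..b, Complex.exp (Complex.I * (d : ℂ) * (t : ℂ))‖ ≤ 2 / |d| := by
  have hc : Complex.I * (d : ℂ) ≠ 0 := mul_ne_zero Complex.I_ne_zero (by exact_mod_cast hd)
  rw [integral_exp_mul_complex hc, norm_div, norm_mul, Complex.norm_I, one_mul, Complex.norm_real,
    Real.norm_eq_abs]
  apply div_le_div_of_nonneg_right _ (abs_nonneg d)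
  refine (norm_sub_le _ _).trans ?_
  have h : ∀ x : ℝ, ‖Complex.exp (Complex.I * (d : ℂ) * (x : ℂ))‖ = 1 := by
    intro x
    have : Complex.I * (d : ℂ) * (x : ℂ) = ((d * x : ℝ) : ℂ) * Complex.I := by push_cast; ring
    rw [this, Complex.norm_exp_ofReal_mul_I]
  rw [h, h]
  norm_num

theorem log_diff {m n M : ℕ} (hm : 1 ≤ m) (hn : 1 ≤ n) (hm' : m ≤ M) (hn' : n ≤ M) (h : m ≠ n) :
    1 / (M : ℝ) ≤ |Real.log m - Real.log n| := by
  have key : ∀ m n : ℕ, 1 ≤ m → n ≤ M → m < n → 1 / (M : ℝ) ≤ Real.log n - Real.log m := by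
    intro m n hm hn' h
    have hm0 : (0 : ℝ) < m := by exact_mod_cast hm
    have hn0 : (0 : ℝ) < n := by exact_mod_cast (by omega : 0 < n)
    have hM0 : (0 : ℝ) < M := by exact_mod_cast (by omega : 0 < M)
    have h1 : Real.log (m / n) ≤ m / n - 1 := Real.log_le_sub_one_of_pos (by positivity)
    rw [Real.log_div hm0.ne' hn0.ne'] at h1
    have h2 : (m : ℝ) / n - 1 ≤ -(1 / M) := by
      have h3 : (m : ℝ) + 1 ≤ n := by exact_mod_cast h
      have h4 : (m : ℝ) / n - 1 = -((n - m) / n) := by field_simp; ring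
      rw [h4, neg_le_neg_iff]
      have h5 : (n : ℝ) ≤ M := by exact_mod_cast hn'
      calc 1 / (M : ℝ) ≤ 1 / n := one_div_le_one_div_of_le hn0 h5
        _ ≤ (n - m) / n := div_le_div_of_nonneg_right (by linarith) hn0.le
    linarith
  rcases lt_or_gt_of_ne h with h' | h'
  · rw [abs_sub_comm]
    exact (key m n hm hn' h').trans (le_abs_self _)
  · exact (key n m hn hm' h').trans (le_abs_self _)

theorem MN_eq (N : ℕ) (α : Fin k → ℝ) (b : ℂ) :
    MN N α b = ∑ f ∈ FF k N, ∑ g ∈ (FF k N).filter (fun g => ∏ i, g i = ∏ i, f i), HH α b f g := by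
  unfold MN
  rw [← Finset.sum_fiberwise_of_maps_to (s := FF k N) (t := Finset.Icc 1 (N ^ k))
    (g := fun f => ∏ i, f i) (fun f hf => Finset.mem_Icc.mpr ⟨prod_pos' hf, prod_le' hf⟩)]
  refine Finset.sum_congr rfl fun n hn => ?_
  have hn1 : 1 ≤ n := (Finset.mem_Icc.mp hn).1
  have e1 : ((‖gN N α n‖ ^ 2 : ℝ) : ℂ) = ∑ f ∈ (FF k N).filter (fun f => ∏ i, f i = n),
      ∑ g ∈ (FF k N).filter (fun g => ∏ i, g i = n), conj (ch α f) * ch α g := by
    have h1 : gN N α n = ∑ g ∈ (FF k N).filter (fun g => ∏ i, g i = n), ch α g := rfl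
    have h2 : ((‖gN N α n‖ ^ 2 : ℝ) : ℂ) = conj (gN N α n) * gN N α n := by
      rw [← Complex.normSq_eq_conj_mul_self, Complex.normSq_eq_norm_sq]
    rw [h2, h1, map_sum, Finset.sum_mul_sum]
  rw [e1, Finset.sum_mul]
  refine Finset.sum_congr rfl fun f hf => ?_
  rw [Finset.mem_filter] at hf
  rw [Finset.sum_mul, hf.2]
  refine Finset.sum_congr rfl fun g hg => ?_
  rw [Finset.mem_filter] at hg
  unfold HH
  congr 1
  rw [nat_cpow hn1]
  unfold lg
  rw [hf.2, hg.2]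
  congr 1
  push_cast
  ring

theorem card_FF (k N : ℕ) : (FF k N).card = N ^ k := by
  unfold FF
  rw [Fintype.card_piFinset]
  simp

theorem t_POL : S_POL := by
  intro k x₀ η hx₀ hη hk α
  refine ⟨2 * 2 ^ (3 * k), by positivity, ?_⟩
  intro j b T hb hT1 hT2
  obtain ⟨N, hN⟩ : ∃ N, N = NJ η j := ⟨_, rfl⟩
  rw [← hN]
  have hb0 : 0 ≤ b.re := hx₀.trans hb
  have hN2 : (1 : ℝ) ≤ (2 : ℝ) ^ (η * j) := Real.one_le_rpow (by norm_num) (by positivity)
  have hN1 : 1 ≤ N := by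
    rw [hN]
    unfold NJ
    exact Nat.one_le_ceil_iff.mpr (by linarith)
  have hNu : (N : ℝ) ≤ 2 * (2 : ℝ) ^ (η * j) := by
    have : (N : ℝ) < (2 : ℝ) ^ (η * j) + 1 := by
      rw [hN]
      exact Nat.ceil_lt_add_one (by positivity)
    linarith
  have e1 : ∫ t in ((2 : ℝ) ^ j)..T, conj (DN N α (conj b + t * Complex.I)) * DN N α (b + t * Complex.I) =
      ∑ f ∈ FF k N, ∑ g ∈ FF k N, HH α b f g *
        ∫ t in ((2 : ℝ) ^ j)..T, Complex.exp (Complex.I * ((lg f - lg g : ℝ) : ℂ) * (t : ℂ)) := by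
    simp_rw [integrand]
    have hcont : ∀ d : ℝ, Continuous fun t : ℝ => Complex.exp (Complex.I * (d : ℂ) * (t : ℂ)) := by
      intro d
      fun_prop
    rw [intervalIntegral.integral_finsetSum]
    · refine Finset.sum_congr rfl fun f _ => ?_
      rw [intervalIntegral.integral_finsetSum]
      · refine Finset.sum_congr rfl fun g _ => ?_
        rw [intervalIntegral.integral_const_mul]
      · intro g _
        exact ((hcont _).const_mul _).intervalIntegrable _ _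
    · intro f _
      exact (continuous_finsetSum _ fun g _ => (hcont _).const_mul _).intervalIntegrable _ _
  have e2 : ((T - 2 ^ j : ℝ) : ℂ) * MN N α b =
      ∑ f ∈ FF k N, ∑ g ∈ (FF k N).filter (fun g => ∏ i, g i = ∏ i, f i), HH α b f g *
        ∫ t in ((2 : ℝ) ^ j)..T, Complex.exp (Complex.I * ((lg f - lg g : ℝ) : ℂ) * (t : ℂ)) := by
    rw [MN_eq, Finset.mul_sum]
    refine Finset.sum_congr rfl fun f _ => ?_
    rw [Finset.mul_sum]
    refine Finset.sum_congr rfl fun g hg => ?_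
    rw [Finset.mem_filter] at hg
    have h1 : lg f - lg g = 0 := by
      unfold lg
      rw [hg.2, sub_self]
    rw [h1]
    simp
    ring
  rw [e1, e2, ← Finset.sum_sub_distrib]
  have e3 : ∀ f ∈ FF k N, (∑ g ∈ FF k N, HH α b f g *
        ∫ t in ((2 : ℝ) ^ j)..T, Complex.exp (Complex.I * ((lg f - lg g : ℝ) : ℂ) * (t : ℂ))) -
      ∑ g ∈ (FF k N).filter (fun g => ∏ i, g i = ∏ i, f i), HH α b f g *
        ∫ t in ((2 : ℝ) ^ j)..T, Complex.exp (Complex.I * ((lg f - lg g : ℝ) : ℂ) * (t : ℂ)) =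
      ∑ g ∈ (FF k N).filter (fun g => ¬ ∏ i, g i = ∏ i, f i), HH α b f g *
        ∫ t in ((2 : ℝ) ^ j)..T, Complex.exp (Complex.I * ((lg f - lg g : ℝ) : ℂ) * (t : ℂ)) := by
    intro f _
    rw [← Finset.sum_filter_add_sum_filter_not (FF k N) (fun g => ∏ i, g i = ∏ i, f i)
      (fun g => HH α b f g *
        ∫ t in ((2 : ℝ) ^ j)..T, Complex.exp (Complex.I * ((lg f - lg g : ℝ) : ℂ) * (t : ℂ)))]
    ring
  rw [Finset.sum_congr rfl e3]
  have hNk : (0 : ℝ) < ((N ^ k : ℕ) : ℝ) := by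
    exact_mod_cast Nat.pos_of_ne_zero (pow_ne_zero _ (by omega))
  have h4 : ∀ f ∈ FF k N, ‖∑ g ∈ (FF k N).filter (fun g => ¬ ∏ i, g i = ∏ i, f i), HH α b f g *
        ∫ t in ((2 : ℝ) ^ j)..T, Complex.exp (Complex.I * ((lg f - lg g : ℝ) : ℂ) * (t : ℂ))‖ ≤
      (N ^ k : ℕ) * (2 * (N ^ k : ℕ)) := by
    intro f hf
    refine (norm_sum_le _ _).trans ?_
    have h5 : ∀ g ∈ (FF k N).filter (fun g => ¬ ∏ i, g i = ∏ i, f i), ‖HH α b f g *
        ∫ t in ((2 : ℝ) ^ j)..T, Complex.exp (Complex.I * ((lg f - lg g : ℝ) : ℂ) * (t : ℂ))‖ ≤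
        2 * (N ^ k : ℕ) := by
      intro g hg
      rw [Finset.mem_filter] at hg
      have h6 := log_diff (prod_pos' hf) (prod_pos' hg.1) (prod_le' hf) (prod_le' hg.1)
        (fun h => hg.2 h.symm)
      have h7 : 0 < |lg f - lg g| := lt_of_lt_of_le (by positivity) h6
      rw [norm_mul]
      calc _ ≤ 1 * (2 / |lg f - lg g|) :=
            mul_le_mul (norm_HH hb0 hf hg.1) (int_le (abs_pos.mp h7)) (norm_nonneg _) zero_le_one
        _ ≤ 2 * (N ^ k : ℕ) := by
          rw [one_mul, div_le_iff₀ h7, mul_assoc]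
          have h8 : 1 ≤ ((N ^ k : ℕ) : ℝ) * |lg f - lg g| := by
            have h9 : 1 / ((N ^ k : ℕ) : ℝ) ≤ |lg f - lg g| := h6
            rw [div_le_iff₀ hNk] at h9
            linarith
          linarith
    refine (Finset.sum_le_sum h5).trans ?_
    rw [Finset.sum_const, nsmul_eq_mul]
    refine mul_le_mul_of_nonneg_right ?_ (by positivity)
    have h6 := Finset.card_filter_le (FF k N) (fun g => ¬ ∏ i, g i = ∏ i, f i)
    rw [card_FF] at h6
    exact_mod_cast h6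
  refine (norm_sum_le _ _).trans ((Finset.sum_le_sum h4).trans ?_)
  rw [Finset.sum_const, nsmul_eq_mul, card_FF]
  have h5 : ((N ^ k : ℕ) : ℝ) * ((N ^ k : ℕ) * (2 * (N ^ k : ℕ))) = 2 * (N : ℝ) ^ (3 * k) := by
    push_cast
    rw [mul_comm 3 k, pow_mul]
    ring
  rw [h5]
  have h6 : (N : ℝ) ^ (3 * k) ≤ 2 ^ (3 * k) * (2 : ℝ) ^ ((j : ℝ) / 2) := by
    calc (N : ℝ) ^ (3 * k) ≤ (2 * (2 : ℝ) ^ (η * j)) ^ (3 * k) :=
          pow_le_pow_left₀ (Nat.cast_nonneg _) hNu _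
      _ = 2 ^ (3 * k) * ((2 : ℝ) ^ (η * j)) ^ (3 * k) := by rw [mul_pow]
      _ ≤ 2 ^ (3 * k) * (2 : ℝ) ^ ((j : ℝ) / 2) := by
        refine mul_le_mul_of_nonneg_left ?_ (by positivity)
        rw [← Real.rpow_natCast, ← Real.rpow_mul (by norm_num)]
        apply Real.rpow_le_rpow_of_exponent_le (by norm_num)
        push_cast
        have : (0 : ℝ) ≤ j := Nat.cast_nonneg _
        nlinarith
  calc 2 * (N : ℝ) ^ (3 * k) ≤ 2 * (2 ^ (3 * k) * (2 : ℝ) ^ ((j : ℝ) / 2)) := by linarith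
    _ = _ := by ring

end

end Pool.Agent.J4H57.GS
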