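import Pool.Agent.J4H38.GS.Stm5
import Pool.Agent.J4H6.GS5.Mean

/-! Project GS5, piece SUB: the mean square of the products of `1 + |expZeta|` for almost all shifts. -/

set_option autoImplicit false

namespace Pool.Agent.J4H57.GS.Sub

open MeasureTheory Set Filter Topology
open Pool.Agent.J4H38.GS
open scoped ENNReal

noncomputable section

theorem ae01 (k : ℕ) : ∀ᵐ α ∂(volume.restrict (cube k)), ∀ i, 0 < α i ∧ α i < 1 := by
  have h1 : ∀ᵐ α ∂(volume : Measure (Fin k → ℝ)), ∀ i, α i ≠ 0 := by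
    rw [ae_all_iff]
    intro i
    have h0 : (volume : Measure (Fin k → ℝ)) {f : Fin k → ℝ | f i = 0} = 0 := by
      rw [volume_pi]
      exact Measure.pi_hyperplane _ i 0
    rw [ae_iff]
    simpa using h0
  have hm : MeasurableSet (cube k) := MeasurableSet.univ_pi fun _ => measurableSet_Ico
  have h2 : ∀ᵐ α ∂(volume.restrict (cube k)), α ∈ cube k := ae_restrict_mem hm
  filter_upwards [ae_restrict_of_ae h1, h2] with α h1 h2 i
  have h3 : α i ∈ Ico (0 : ℝ) 1 := h2 i (mem_univ i)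
  exact ⟨lt_of_le_of_ne h3.1 (h1 i).symm, h3.2⟩

theorem ne0 {a : ℝ} (h0 : 0 < a) (h1 : a < 1) : (a : UnitAddCircle) ≠ 0 := by
  intro h
  have : Fact ((0 : ℝ) < 1) := ⟨one_pos⟩
  exact h0.ne' ((AddCircle.coe_eq_zero_iff_of_mem_Ico ⟨h0.le, h1⟩).mp h)

theorem restr (k : ℕ) : (volume.restrict (cube k) : Measure (Fin k → ℝ)) = Measure.pi (fun _ => volume.restrict (Ico (0 : ℝ) 1)) := by
  unfold cube
  rw [volume_pi, Measure.restrict_pi_pi]

/-- `expZeta` on `(0, 1)` -/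
def ez (a : ℝ) (w : ℂ) : ℂ := indicator (Ioo (0 : ℝ) 1) (fun a => HurwitzZeta.expZeta (a : UnitAddCircle) w) a

theorem SN_cont (N : ℕ) : Continuous fun p : ℝ × ℂ => SN N p.1 p.2 := by
  unfold SN
  refine continuous_finsetSum _ fun n hn => ?_
  have h0 : (n : ℂ) ≠ 0 := by
    rw [Finset.mem_Icc] at hn
    exact_mod_cast (by omega : n ≠ 0)
  refine Continuous.mul (by fun_prop) (Continuous.const_cpow (by fun_prop) (Or.inl h0))

theorem ez_tendsto (hEZ : S_EZ) {w : ℂ} (hw : 0 < w.re) (a : ℝ) :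
    Tendsto (fun N => indicator (Ioo (0 : ℝ) 1) (fun a => SN N a w) a) atTop (𝓝 (ez a w)) := by
  unfold ez
  by_cases ha : a ∈ Ioo (0 : ℝ) 1
  · simp only [indicator_of_mem ha]
    exact hEZ a ha.1 ha.2 w hw
  · simp only [indicator_of_notMem ha]
    exact tendsto_const_nhds

theorem ez_meas (hEZ : S_EZ) {w : ℂ} (hw : 0 < w.re) : Measurable fun a => ez a w := by
  refine measurable_of_tendsto_metrizable (f := fun N a => indicator (Ioo (0 : ℝ) 1) (fun a => SN N a w) a) (fun N => ?_)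
    (tendsto_pi_nhds.2 fun a => ez_tendsto hEZ hw a)
  exact (((SN_cont N).comp (by fun_prop : Continuous fun a : ℝ => (a, w))).measurable).indicator measurableSet_Ioo

/-- products over a set of indices -/
def hS {k : ℕ} (S : Finset (Fin k)) (α : Fin k → ℝ) (w : ℂ) : ℂ := ∏ i ∈ S, HurwitzZeta.expZeta (α i : UnitAddCircle) w

theorem hS_diff {k : ℕ} (S : Finset (Fin k)) {α : Fin k → ℝ} (hα : ∀ i, 0 < α i ∧ α i < 1) : Differentiable ℂ (hS S α) := by
  unfold hS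
  refine Differentiable.fun_finsetProd fun i _ => ?_
  exact HurwitzZeta.differentiable_expZeta_of_ne_zero (ne0 (hα i).1 (hα i).2)

theorem hS_meas (hEZ : S_EZ) {k : ℕ} (S : Finset (Fin k)) :
    AEMeasurable (fun p : (Fin k → ℝ) × (ℝ × ℝ) => ‖hS S p.1 (p.2.1 + p.2.2 * Complex.I)‖ₑ ^ 2)
      ((volume.restrict (cube k)).prod (volume.restrict {p : ℝ × ℝ | 1 / 2 < p.1})) := by
  refine AEMeasurable.pow_const (AEMeasurable.enorm ?_) 2
  have h1 : ∀ᵐ p ∂((volume.restrict (cube k)).prod (volume.restrict {p : ℝ × ℝ | 1 / 2 < p.1})),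
      ∀ i, 0 < p.1 i ∧ p.1 i < 1 := Measure.quasiMeasurePreserving_fst.ae (ae01 k)
  have h2 : ∀ᵐ p ∂((volume.restrict (cube k)).prod (volume.restrict {p : ℝ × ℝ | 1 / 2 < p.1})),
      1 / 2 < p.2.1 := by
    refine Measure.quasiMeasurePreserving_snd.ae (p := fun q : ℝ × ℝ => 1 / 2 < q.1) ?_
    exact ae_restrict_mem (measurableSet_lt measurable_const measurable_fst)
  refine aemeasurable_of_tendsto_metrizable_ae atTop
    (f := fun (N : ℕ) (p : (Fin k → ℝ) × (ℝ × ℝ)) => ∏ i ∈ S, SN N (p.1 i) (p.2.1 + p.2.2 * Complex.I)) (fun N => ?_) ?_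
  · refine Continuous.aemeasurable ?_
    refine continuous_finsetProd _ fun i _ => ?_
    exact (SN_cont N).comp (f := fun p : (Fin k → ℝ) × (ℝ × ℝ) => (p.1 i, (p.2.1 + p.2.2 * Complex.I : ℂ))) (by fun_prop)
  · filter_upwards [h1, h2] with p hp1 hp2
    unfold hS
    refine tendsto_finsetProd _ fun i _ => ?_
    exact hEZ _ (hp1 i).1 (hp1 i).2 _ (by simp; linarith)

theorem hS_mean (hEZ : S_EZ) (hLA : S_LA) {k : ℕ} (S : Finset (Fin k)) {x₀ : ℝ} (hx : 1 / 2 < x₀) (v : ℂ)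
    (hv : (1 / 2 + x₀) / 2 ≤ v.re) :
    ∫⁻ α, ‖hS S α v‖ₑ ^ 2 ∂(volume.restrict (cube k)) ≤ ENNReal.ofReal ((2 + 1 / (x₀ - 1 / 2)) ^ k) := by
  have hv0 : 1 / 2 < v.re := by linarith
  obtain ⟨f, hf⟩ : ∃ f : ℝ → ℝ≥0∞, f = fun a => 1 + ‖ez a v‖ₑ ^ 2 := ⟨_, rfl⟩
  have hfm : Measurable f := by
    rw [hf]
    exact measurable_const.add ((ez_meas hEZ (by linarith)).enorm.pow_const 2)
  have hfi : ∫⁻ a in Ico (0 : ℝ) 1, f a ≤ ENNReal.ofReal (2 + 1 / (x₀ - 1 / 2)) := by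
    have h1 := (hLA v hv0).2.2
    have h2 : ∫⁻ a in Ico (0 : ℝ) 1, ‖ez a v‖ₑ ^ 2 ≤ ∫⁻ a in Ico (0 : ℝ) 1, ‖HurwitzZeta.expZeta (a : UnitAddCircle) v‖ₑ ^ 2 := by
      refine lintegral_mono fun a => ?_
      have : ‖ez a v‖ₑ ≤ ‖HurwitzZeta.expZeta (a : UnitAddCircle) v‖ₑ := by
        unfold ez
        exact enorm_indicator_le_enorm_self _ _
      exact pow_le_pow_left' this 2
    have h3 : 1 / (2 * v.re - 1) ≤ 1 / (x₀ - 1 / 2) := one_div_le_one_div_of_le (by linarith) (by linarith)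
    have h4 : 0 < x₀ - 1 / 2 := by linarith
    rw [hf, lintegral_add_left measurable_const, lintegral_const, Measure.restrict_apply MeasurableSet.univ, univ_inter,
      Real.volume_Ico, sub_zero, ENNReal.ofReal_one, mul_one]
    calc (1 : ℝ≥0∞) + ∫⁻ a in Ico (0 : ℝ) 1, ‖ez a v‖ₑ ^ 2
        ≤ ENNReal.ofReal 1 + ENNReal.ofReal (1 + 1 / (2 * v.re - 1)) := by
          rw [ENNReal.ofReal_one]
          exact add_le_add le_rfl (h2.trans h1)
      _ = ENNReal.ofReal (1 + (1 + 1 / (2 * v.re - 1))) := by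
          have : 0 < 2 * v.re - 1 := by linarith
          rw [← ENNReal.ofReal_add (by norm_num) (by positivity)]
      _ ≤ _ := ENNReal.ofReal_le_ofReal (by linarith)
  have h5 : 0 < x₀ - 1 / 2 := by linarith
  have h1 := Pool.Agent.J4H6.GS5.lint_prod_le (volume.restrict (Ico (0 : ℝ) 1)) f hfm (2 + 1 / (x₀ - 1 / 2)) (by positivity) hfi k
  rw [← restr] at h1
  refine le_trans ?_ h1
  refine lintegral_mono_ae ?_
  filter_upwards [ae01 k] with α hα
  have h2 : ‖hS S α v‖ₑ ^ 2 = ∏ i ∈ S, ‖ez (α i) v‖ₑ ^ 2 := by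
    unfold hS
    rw [Finset.prod_pow, ← ofReal_norm, norm_prod, ENNReal.ofReal_prod_of_nonneg (fun i _ => norm_nonneg _)]
    congr 1
    refine Finset.prod_congr rfl fun i _ => ?_
    rw [ofReal_norm]
    have hmem : α i ∈ Ioo (0 : ℝ) 1 := ⟨(hα i).1, (hα i).2⟩
    unfold ez
    rw [indicator_of_mem hmem]
  rw [h2, hf]
  calc ∏ i ∈ S, ‖ez (α i) v‖ₑ ^ 2 ≤ ∏ i ∈ S, (1 + ‖ez (α i) v‖ₑ ^ 2) :=
        Finset.prod_le_prod' fun i _ => le_add_self
    _ ≤ ∏ i, (1 + ‖ez (α i) v‖ₑ ^ 2) := by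
        refine Finset.prod_le_prod_of_subset_of_one_le' (Finset.subset_univ S) fun i _ _ => ?_
        exact le_self_add

theorem t_SUB (hEZ : S_EZ) (hLA : S_LA) : S_SUB := by
  intro k x₀ x₁ ε hx₀ hx hε
  have h5 : 0 < x₀ - 1 / 2 := by linarith
  have h1 : ∀ᵐ α ∂(volume.restrict (cube k)), ∀ S : Finset (Fin k), ∀ Y : ℝ, ∃ C : ℝ, 0 ≤ C ∧ ∀ (j : ℕ) (b : ℂ),
      x₀ ≤ b.re → b.re ≤ x₁ → |b.im| ≤ Y →
      ∫ t in ((2 : ℝ) ^ j)..(2 ^ (j + 1)), ‖hS S α (b + t * Complex.I)‖ ^ 2 ≤ C * (2 : ℝ) ^ (j * (1 - 0 + ε)) := by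
    rw [ae_all_iff]
    intro S
    refine Pool.Agent.J4H6.GS5.ae_lines (volume.restrict (cube k)) (fun _ α => hS S α) x₀ x₁ 0 ε
      ((2 + 1 / (x₀ - 1 / 2)) ^ k) hx₀ hx hε (by positivity) ?_ (fun _ => hS_meas hEZ S) (fun j v hv => ?_)
    · filter_upwards [ae01 k] with α hα _
      exact hS_diff S hα
    · rw [neg_zero, zero_mul, Real.rpow_zero, mul_one]
      exact hS_mean hEZ hLA S hx₀ v hv
  filter_upwards [h1, ae01 k] with α hα hα0 Y
  choose C hC0 hC using fun S => hα S Y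
  refine ⟨2 ^ k * ∑ S, C S, mul_nonneg (by positivity) (Finset.sum_nonneg fun S _ => hC0 S), fun j b hb => ?_⟩
  have hcS : ∀ S, Continuous fun t : ℝ => ‖hS S α (b + t * Complex.I)‖ ^ 2 := fun S =>
    ((hS_diff S hα0).continuous.comp (by fun_prop : Continuous fun t : ℝ => b + t * Complex.I)).norm.pow 2
  have hcP : Continuous fun t : ℝ => ∏ i, (1 + ‖HurwitzZeta.expZeta (α i : UnitAddCircle) (b + t * Complex.I)‖) ^ 2 := by
    refine continuous_finsetProd _ fun i _ => ?_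
    refine (continuous_const.add (Continuous.norm ?_)).pow 2
    exact (HurwitzZeta.differentiable_expZeta_of_ne_zero (ne0 (hα0 i).1 (hα0 i).2)).continuous.comp (by fun_prop)
  have hpt : ∀ t : ℝ, ∏ i, (1 + ‖HurwitzZeta.expZeta (α i : UnitAddCircle) (b + t * Complex.I)‖) ^ 2 ≤
      2 ^ k * ∑ S : Finset (Fin k), ‖hS S α (b + t * Complex.I)‖ ^ 2 := by
    intro t
    have e1 : (2 : ℝ) ^ k * ∑ S : Finset (Fin k), ‖hS S α (b + t * Complex.I)‖ ^ 2 =
        ∏ i, (2 * (1 + ‖HurwitzZeta.expZeta (α i : UnitAddCircle) (b + t * Complex.I)‖ ^ 2)) := by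
      rw [Finset.prod_mul_distrib, Finset.prod_const, Finset.card_univ, Fintype.card_fin, Finset.prod_one_add,
        Finset.powerset_univ]
      congr 1
      refine Finset.sum_congr rfl fun S _ => ?_
      unfold hS
      rw [norm_prod, Finset.prod_pow]
    rw [e1]
    refine Finset.prod_le_prod (fun i _ => by positivity) fun i _ => ?_
    nlinarith [sq_nonneg (1 - ‖HurwitzZeta.expZeta (α i : UnitAddCircle) (b + t * Complex.I)‖)]
  have h2j : (2 : ℝ) ^ j ≤ 2 ^ (j + 1) := pow_le_pow_right₀ (by norm_num) (Nat.le_succ j)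
  calc ∫ t in ((2 : ℝ) ^ j)..(2 ^ (j + 1)), ∏ i, (1 + ‖HurwitzZeta.expZeta (α i : UnitAddCircle) (b + t * Complex.I)‖) ^ 2
      ≤ ∫ t in ((2 : ℝ) ^ j)..(2 ^ (j + 1)), 2 ^ k * ∑ S : Finset (Fin k), ‖hS S α (b + t * Complex.I)‖ ^ 2 := by
        refine intervalIntegral.integral_mono_on h2j (hcP.intervalIntegrable _ _) ?_ fun t _ => hpt t
        exact (continuous_const.mul (continuous_finsetSum _ fun S _ => hcS S)).intervalIntegrable _ _
    _ = 2 ^ k * ∑ S : Finset (Fin k), ∫ t in ((2 : ℝ) ^ j)..(2 ^ (j + 1)), ‖hS S α (b + t * Complex.I)‖ ^ 2 := by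
        rw [intervalIntegral.integral_const_mul, intervalIntegral.integral_finsetSum fun S _ => (hcS S).intervalIntegrable _ _]
    _ ≤ 2 ^ k * ∑ S : Finset (Fin k), C S * (2 : ℝ) ^ (j * (1 - 0 + ε)) := by
        refine mul_le_mul_of_nonneg_left (Finset.sum_le_sum fun S _ => ?_) (by positivity)
        exact hC S j b hb.1 hb.2.1 hb.2.2
    _ = _ := by
        rw [← Finset.sum_mul, sub_zero, mul_assoc]

end

end Pool.Agent.J4H57.GS.Sub
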